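import Pool.Agent.H3RD.W830.RD.Stm

set_option autoImplicit false

namespace Pool.Agent.W400.RD.Short

open Pool.Agent.W830.RD
open Finset
open scoped Classical

theorem exists_min {α : Type} (Q : Finset (Finset α)) :
    ∀ n : ℕ, n ≤ Q.card → ∃ J ⊆ Q, J.card = n ∧ ∀ C ∈ J, ∀ C' ∈ Q \ J, C.card ≤ C'.card := by
  intro n
  induction n with
  | zero =>
    intro _
    exact ⟨∅, Finset.empty_subset _, rfl, fun C hC => absurd hC (Finset.notMem_empty C)⟩
  | succ n ih =>
    intro hn
    obtain ⟨J, hJQ, hJn, hmin⟩ := ih (by omega)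
    have hne : (Q \ J).Nonempty := by
      rw [← Finset.card_pos, Finset.card_sdiff_of_subset hJQ]
      omega
    obtain ⟨C0, hC0, hC0min⟩ := Finset.exists_min_image (Q \ J) (fun C => C.card) hne
    have hC0' := Finset.mem_sdiff.1 hC0
    refine ⟨insert C0 J, ?_, ?_, ?_⟩
    · exact Finset.insert_subset hC0'.1 hJQ
    · rw [Finset.card_insert_of_notMem hC0'.2, hJn]
    · intro C hC C' hC'
      have hC'1 : C' ∈ Q \ J := by
        rw [Finset.mem_sdiff] at hC' ⊢
        exact ⟨hC'.1, fun h => hC'.2 (Finset.mem_insert_of_mem h)⟩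
      rcases Finset.mem_insert.1 hC with rfl | hC
      · exact hC0min C' hC'1
      · exact hmin C hC C' hC'1

theorem card_sub_two {L c : ℕ} (hc : c ≤ L) :
    c - 2 = ∑ k ∈ Finset.Icc 3 L, if k ≤ c then 1 else 0 := by
  rw [← Finset.sum_filter]
  rw [Finset.sum_const, smul_eq_mul, mul_one]
  have : (Finset.Icc 3 L).filter (fun k => k ≤ c) = Finset.Icc 3 c := by
    ext k
    simp only [Finset.mem_filter, Finset.mem_Icc]
    omega
  rw [this, Nat.card_Icc]
  omega

theorem main : S_SHORT := by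
  intro α Q n L hQ hn
  obtain ⟨J, hJQ, hJn, hmin⟩ := exists_min Q n hn
  refine ⟨J, hJQ, hJn, ?_⟩
  have h1 : ∑ C ∈ J, (C.card - 2) = ∑ k ∈ Finset.Icc 3 L, ∑ C ∈ J, (if k ≤ C.card then 1 else 0) := by
    rw [Finset.sum_comm]
    refine Finset.sum_congr rfl fun C hC => ?_
    exact card_sub_two (hQ C (hJQ hC)).2
  rw [h1]
  refine Finset.sum_le_sum fun k _ => ?_
  rw [← Finset.card_filter]
  by_cases he : (J.filter (fun C => k ≤ C.card)) = ∅
  · rw [he]; simp
  · obtain ⟨C1, hC1⟩ := Finset.nonempty_iff_ne_empty.2 he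
    rw [Finset.mem_filter] at hC1
    have hsub : (J.filter (fun C => k ≤ C.card)) ∪ (Q \ J) ⊆ Q.filter (fun C => k ≤ C.card) := by
      intro C hC
      rw [Finset.mem_filter]
      rcases Finset.mem_union.1 hC with h | h
      · rw [Finset.mem_filter] at h
        exact ⟨hJQ h.1, h.2⟩
      · exact ⟨(Finset.mem_sdiff.1 h).1, hC1.2.trans (hmin C1 hC1.1 C h)⟩
    have hcard := Finset.card_le_card hsub
    rw [Finset.card_union_of_disjoint, Finset.card_sdiff_of_subset hJQ] at hcard
    · have := Finset.card_le_card hJQ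
      omega
    · rw [Finset.disjoint_left]
      intro C hC hC'
      exact (Finset.mem_sdiff.1 hC').2 (Finset.mem_filter.1 hC).1

end Pool.Agent.W400.RD.Short
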